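import Pool.Agent.Run7.h197.Q.DynG

/-!
# MP_13bc7b_nt: polynomial endomorphisms of `P^N` of large degree in one-parameter families

Let `K` be a number field, `S` a finite set of prime numbers (the prime divisors of `q`) and
`c = F/G` a rational function over `K` with at least two different poles in the affine line over an
algebraic closure.

**Theorem.** For all `D` and `M` there are `n₀` and a FINITE set `E` of parameters such that for all
`t ∈ K` outside `E` which are `S`-integral or satisfy `|φ(t)| ≥ H(t)^(1/M)` for some embedding `φ` of
`K` into `ℂ`, for all dimensions `N` and all degrees `d ≥ n₀`: a polynomial map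
`f = T + R + u : A^N → A^N`, where `T` is a vector of forms of degree `d` over the `S`-integers with
good reduction outside `S`, `R` has degree less than `d` and is defined over the `S`-integers, and `u`
is a constant vector over `K` with the same denominators as `c(t)` outside `S`, has no preperiodic
point in `A^N(L)`, for all extensions `L` of `K` with `[L : K] ≤ D`.

Here `f` is the restriction of an endomorphism of degree `d` of `P^N`; its preperiodic points of
degree at most `D` are hence those at infinity, so there is only one for `N = 1`.

The exceptional set and `n₀` do not depend on `N`, `d`, `f` and `L`.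

Proof.  Let `v` be a place outside `S` with `v(c(t)) < 0`.  Above `v` there is a place `w` of `L`
of ramification index `e ≤ D`.  If `|z_i|_w^d ≠ |c(t)|_w` for all `i` then the orbit of `z` tends to
infinity at `w`.  Hence `d` divides `e v(c(t))` and `D! v(c(t))`.  If this holds for all such `v`
then, for two different poles `β`, `β'` of `c` and for a large divisor `n` of `d`, the positive orders
of `t - β` and `t - β'` at the places outside of a finite set are divisible by `n`.  The theorem that
for `n ≥ n₀` this happens for finitely many `t` only is proved here from lower bounds for linear forms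
in logarithms over number fields, archimedean and `p`-adic, which are sharp in one of the heights
(`Run7.h197.BK`, `Run7.h197.PB`); the parameters which need not be integral are in `Run7.h197.Q`.
-/

set_option autoImplicit false

open NumberField Height

namespace Pool.Agent.Results.MP_13bc7b_nt.LargeParameters

section
variable {K : Type} [Field K]

/-- `x` is an `S`-integer, `S` the set of prime divisors of `q`. -/
def SInt (q : ℕ) (x : K) : Prop := ∃ k : ℕ, IsIntegral ℤ ((q : K) ^ k * x)

/-- `T` consists of forms of degree `d` over the `S`-integers, and (good reduction outside `S`) some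
power of each variable times some power of `q` is in the ideal they generate. -/
def GoodForms (q d : ℕ) {ι : Type} [Fintype ι] (T : ι → MvPolynomial ι K) : Prop :=
  (∀ i, (T i).IsHomogeneous d ∧ ∀ m, SInt q ((T i).coeff m)) ∧
    ∀ i, ∃ (k e : ℕ) (Q : ι → MvPolynomial ι K),
      (∀ j, (Q j).IsHomogeneous e ∧ ∀ m, SInt q ((Q j).coeff m)) ∧
        MvPolynomial.C ((q : K) ^ k) * MvPolynomial.X i ^ (e + d) = ∑ j, Q j * T j

/-- `R` consists of polynomials of degree less than `d` over the `S`-integers. -/
def LowTerms (q d : ℕ) {ι : Type} (R : ι → MvPolynomial ι K) : Prop :=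
  ∀ i, (R i).totalDegree < d ∧ ∀ m, SInt q ((R i).coeff m)

/-- `1` and the entries of the vector `u` generate the same module over the `S`-integers as `1` and
`c`. -/
def SamePoles (q : ℕ) (c : K) {ι : Type} [Fintype ι] (u : ι → K) : Prop :=
  (∀ i, ∃ x y : K, SInt q x ∧ SInt q y ∧ u i = x + y * c) ∧
    ∃ (x : K) (y : ι → K), SInt q x ∧ (∀ i, SInt q (y i)) ∧ c = x + ∑ i, y i * u i

/-- The polynomial map `z ↦ f(z)` on `L^N`. -/
noncomputable def polyMap {ι : Type} (f : ι → MvPolynomial ι K) (L : Type) [Field L] [Algebra K L]
    (z : ι → L) : ι → L :=
  fun i => MvPolynomial.aeval z (f i)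

end

section
variable {K : Type} [Field K] [NumberField K]

/-- `t` is an `S`-integer or large at an archimedean place in comparison with its height (the product
over all places of `K` of `max(1, |t|_v)`). -/
def Admissible (q M : ℕ) (t : K) : Prop :=
  SInt q t ∨ ∃ φ : K →+* ℂ, mulHeight₁ t ≤ ‖φ t‖ ^ M

end

/-- **Preperiodic points of polynomial endomorphisms of large degree in one-parameter families.** -/
theorem result (K : Type) [Field K] [NumberField K] (F G : Polynomial K) (hcop : IsCoprime F G)
    (hG : G ≠ 0)
    (hpoles : ¬ ∃ (a b : K) (m : ℕ), G = Polynomial.C a * (Polynomial.X - Polynomial.C b) ^ m)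
    (q M D : ℕ) (hq : q ≠ 0) :
    ∃ (n₀ : ℕ) (E : Set K), E.Finite ∧ ∀ t ∉ E, Admissible q M t → G.eval t ≠ 0 →
      ∀ (ι : Type) [Fintype ι] (d : ℕ), n₀ ≤ d → ∀ (T R : ι → MvPolynomial ι K) (u : ι → K),
        GoodForms q d T → LowTerms q d R → SamePoles q (F.eval t / G.eval t) u →
          ∀ (L : Type) [Field L] [NumberField L] [Algebra K L], Module.finrank K L ≤ D →
            ∀ z : ι → L, (Set.range fun k : ℕ =>
              (polyMap (fun i => T i + R i + MvPolynomial.C (u i)) L)^[k] z).Infinite := by
  obtain ⟨n₀, E, hE, h⟩ := Run7.h197.Q.dyn F G hcop hG hpoles q M D hq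
  exact ⟨n₀, E, hE, fun t ht ha hGt ι _ d hd T R u hT hR hu L _ _ _ hL z =>
    h t ht ha hGt ι d hd T R u hT hR hu L hL z⟩

end Pool.Agent.Results.MP_13bc7b_nt.LargeParameters
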