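import Mathlib
import Pool.Agent.Run7.h830.SF.Fam
import Pool.Agent.Run7.h830.SF.Sym

/-!
# Uniform boundedness in every dimension for the symmetric powers of 100% of the members of every
non-isotrivial family of rational maps

The `n`-th symmetric power of an endomorphism `f` of the projective line of degree `d ≥ 2` over `K` is
the endomorphism of degree `d` of `Pⁿ = Symⁿ P¹` over `K` which maps the binary form with the zeros
`p_1, ..., p_n` to the form with the zeros `f(p_1), ..., f(p_n)`; for `n = 1` it is `f` itself. For all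
families of rational maps over number fields which are not isotrivial, for all members outside of a
pronull set of parameters, in particular for 100% of the members in boxes and along random orbits, the
`n`-th symmetric power has at most `C(n, D, d)` preperiodic points in `Pⁿ(L)` for all extensions `L` of
`K` of degree at most `D`.

Proof. The zeros of a form of degree `n` over `L` have degree at most `n D` over `K`, and the zeros of a
preperiodic form are preperiodic (`Pool.Agent.R323.PN`, starting files). The bound for the points of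
degree at most `n D` is proved in `Pool/Agent/Run7/h830/SF`, see the file `EveryFamily` of the problem
MP_90787a_nt.
-/

set_option autoImplicit false

namespace Pool.Agent.Results.MP_13bc7b_nt.SymmetricPowersOfFamilies

open Polynomial NumberField Filter Topology MeasureTheory
open Pool.Agent.N24.RW (ProNull Walk orb words)

/-- The algebraic numbers; all number fields are subfields of this field. -/
abbrev Qbar : Type := AlgebraicClosure ℚ

/-- With `φ(x) = (a x + b) / (c x + e)`, the map `p / q` of degree `d` satisfies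
`φ ∘ (p / q) = (u / w) ∘ φ` for some `a, b, c, e` in `K` with `a e ≠ b c` and some polynomials
`u, w` of degree at most `d`, not both zero, with coefficients algebraic over `F`; the equation is
written with denominators cleared. -/
def IsotrivialOver (F : Type*) {K : Type*} [Field F] [Field K] [Algebra F K] (p q : K[X])
    (d : ℕ) : Prop :=
  ∃ a b c e : K, a * e - b * c ≠ 0 ∧ ∃ u w : K[X], (u ≠ 0 ∨ w ≠ 0) ∧
    u.natDegree ≤ d ∧ w.natDegree ≤ d ∧ (∀ n, IsAlgebraic F (u.coeff n)) ∧
    (∀ n, IsAlgebraic F (w.coeff n)) ∧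
    (C a * p + C b * q) * ∑ i ∈ Finset.range (d + 1),
      C (w.coeff i) * (C a * X + C b) ^ i * (C c * X + C e) ^ (d - i) =
    (C c * p + C e * q) * ∑ i ∈ Finset.range (d + 1),
      C (u.coeff i) * (C a * X + C b) ^ i * (C c * X + C e) ^ (d - i)

/-- The field `k(t_1, ..., t_m)`. -/
abbrev RF (k : Type) [Field k] (m : ℕ) : Type := FractionRing (MvPolynomial (Fin m) k)

/-- `P ∈ k[t_1, ..., t_m][x]` as a polynomial over `k(t_1, ..., t_m)`. -/
noncomputable def generic {k : Type} [Field k] {m : ℕ} (P : (MvPolynomial (Fin m) k)[X]) :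
    (RF k m)[X] :=
  P.map (algebraMap (MvPolynomial (Fin m) k) (RF k m))

/-- `P ∈ k[t_1, ..., t_m][x]` as a polynomial over an algebraic closure of `k(t_1, ..., t_m)`. -/
noncomputable def genBar {k : Type} [Field k] {m : ℕ} (P : (MvPolynomial (Fin m) k)[X]) :
    (AlgebraicClosure (RF k m))[X] :=
  (generic P).map (algebraMap (RF k m) (AlgebraicClosure (RF k m)))

/-- The specialisation of `P ∈ k[t_1, ..., t_m][x]` at `t = (v_1 / v_0, ..., v_m / v_0)`. -/
noncomputable def special {k : Type} [Field k] {m : ℕ} (v : Fin (m + 1) → 𝓞 k)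
    (P : (MvPolynomial (Fin m) k)[X]) : k[X] :=
  P.map (MvPolynomial.eval fun l : Fin m =>
    algebraMap (𝓞 k) k (v l.succ) / algebraMap (𝓞 k) k (v 0))

/-- The value at `v` of the pair of binary forms of degree `d` given by the polynomials `p`, `q` over
`K`: the map `p / q` sends `v 0 / v 1` to the quotient of the two values. -/
noncomputable def act {K : IntermediateField ℚ Qbar} (p q : K[X]) (d : ℕ) (v : Fin 2 → Qbar) :
    Fin 2 → Qbar :=
  fun i => ∑ j : Fin (d + 1), (((if i = 0 then p.coeff j else q.coeff j) : K) : Qbar) *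
    v 0 ^ (j : ℕ) * v 1 ^ (d - (j : ℕ))

/-- The product of the linear forms `z_{i,1} X - z_{i,0} Y` for `i = 1, …, n`, dehomogenised by `Y = 1`:
the binary form of degree `n` with the zeros `z_1, …, z_n` in the projective line. -/
noncomputable def form {n : ℕ} (z : Fin n → Fin 2 → Qbar) : Polynomial Qbar :=
  ∏ i, (Polynomial.C (z i 1) * Polynomial.X - Polynomial.C (z i 0))

/-- The point of `n`-dimensional projective space with the zeros `z_1, …, z_n`: the vector of the
coefficients of the form, where the `j`-th one is that of `X ^ j Y ^ (n - j)`. -/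
noncomputable def point {n : ℕ} (z : Fin n → Fin 2 → Qbar) : Fin (n + 1) → Qbar :=
  fun j => (form z).coeff j

/-- The tuple `Φ` of forms of degree `d` over `L` is the `n`-th symmetric power of `f = p / q`, as an
endomorphism of `n`-dimensional projective space: it takes the form with the zeros `z_1, …, z_n` to the
form with the zeros `f(z_1), …, f(z_n)`. -/
def IsSymmetricPower {K L : IntermediateField ℚ Qbar} (p q : K[X]) (d : ℕ) {n : ℕ}
    (Φ : Fin (n + 1) → MvPolynomial (Fin (n + 1)) L) : Prop :=
  (∀ j, (Φ j).IsHomogeneous d) ∧ ∀ (z : Fin n → Fin 2 → Qbar) (j : Fin (n + 1)),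
    MvPolynomial.aeval (point z) (Φ j) = point (fun i => act p q d (z i)) j

/-- The value of the tuple `Φ` at a vector over `L`. -/
noncomputable def value {n : ℕ} {L : Type} [Field L]
    (Φ : Fin (n + 1) → MvPolynomial (Fin (n + 1)) L) (v : Fin (n + 1) → L) : Fin (n + 1) → L :=
  fun j => MvPolynomial.eval v (Φ j)

/-- The set of the `L`-rational preperiodic points of the tuple `Φ` in `n`-dimensional projective
space. -/
def preperiodic {n : ℕ} {L : Type} [Field L] (Φ : Fin (n + 1) → MvPolynomial (Fin (n + 1)) L) :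
    Set (Projectivization L (Fin (n + 1) → L)) :=
  {P | ∃ m k : ℕ, m < k ∧ ∃ c : L, c ≠ 0 ∧ (value Φ)^[k] P.rep = c • (value Φ)^[m] P.rep}

/-- The member of the family `P / Q` at `t = (v_1 / v_0, ..., v_m / v_0)` is defined, it has degree `d`,
and its `n`-th symmetric power has at most `C` preperiodic points in `Pⁿ(L)` for every number field `L`
containing `K` of degree at most `D` over `K`. -/
def Good {K : IntermediateField ℚ Qbar} [NumberField K] {m : ℕ}
    (P Q : (MvPolynomial (Fin m) K)[X]) (d n D C : ℕ) (v : Fin (m + 1) → 𝓞 K) : Prop :=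
  v 0 ≠ 0 ∧ IsCoprime (special v P) (special v Q) ∧
    max (special v P).natDegree (special v Q).natDegree = d ∧
    ∀ (L : IntermediateField ℚ Qbar) [NumberField L], K ≤ L →
      Module.finrank ℚ L ≤ D * Module.finrank ℚ K →
      ∀ Φ : Fin (n + 1) → MvPolynomial (Fin (n + 1)) L,
        IsSymmetricPower (special v P) (special v Q) d Φ → (preperiodic Φ).encard ≤ (C : ℕ∞)

/-- The vectors of integers of `k` whose coordinates with respect to the basis `ω` are at most `H`
in absolute value. -/
def box {k : Type} [Field k] {J : Type} (ω : Module.Basis J ℤ (𝓞 k)) (m H : ℕ) :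
    Set (Fin (m + 1) → 𝓞 k) :=
  {v | ∀ l j, |ω.repr (v l) j| ≤ (H : ℤ)}

/-- The set `S` contains 100% of the vectors in the boxes. -/
def AlmostAll {k : Type} [Field k] {J : Type} (ω : Module.Basis J ℤ (𝓞 k)) (m : ℕ)
    (S : Set (Fin (m + 1) → 𝓞 k)) : Prop :=
  Tendsto (fun H : ℕ => (({v | v ∈ box ω m H ∧ v ∈ S}.ncard : ℝ) / ((box ω m H).ncard : ℝ)))
    atTop (𝓝 1)

/-- The vector of integers of `k` with the coordinates `c` with respect to the integral basis `ω`. -/
noncomputable def vec {k : Type} [Field k] {J : Type} [Fintype J] (ω : Module.Basis J ℤ (𝓞 k))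
    {m : ℕ} (c : Fin (m + 1) × J → ℤ) : Fin (m + 1) → 𝓞 k :=
  fun l => ∑ j, (c (l, j) : 𝓞 k) * ω j

/-- The family `P / Q` has degree `d` and is not isotrivial: over an algebraic closure of
`k(t_1, ..., t_m)` it is not conjugate to a map with coefficients algebraic over `k`. -/
def IsFamily {k : Type} [Field k] {m : ℕ} (P Q : (MvPolynomial (Fin m) k)[X]) (d : ℕ) : Prop :=
  max P.natDegree Q.natDegree = d ∧ IsCoprime (generic P) (generic Q) ∧
    ¬ IsotrivialOver k (genBar P) (genBar Q) d

/-- The property `p` holds for 100% of the natural numbers. -/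
def MostTimes (p : ℕ → Prop) : Prop :=
  Tendsto (fun T : ℕ => (({n : ℕ | n < T ∧ p n}.ncard : ℕ) : ℝ) / (T : ℝ)) atTop (𝓝 1)

theorem countable_mv (σ R : Type) [Countable σ] [CommRing R] [Countable R] :
    Countable (MvPolynomial σ R) := by
  rw [← Cardinal.mk_le_aleph0_iff]
  refine (MvPolynomial.cardinalMk_le_max (σ := σ) (R := R)).trans ?_
  exact max_le (max_le (Cardinal.mk_le_aleph0_iff.2 inferInstance)
    (Cardinal.mk_le_aleph0_iff.2 inferInstance)) le_rfl

theorem countable_poly (R : Type) [CommRing R] [Countable R] : Countable R[X] := by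
  rw [← Cardinal.mk_le_aleph0_iff]
  refine (Polynomial.cardinalMk_le_max (R := R)).trans ?_
  exact max_le (Cardinal.mk_le_aleph0_iff.2 inferInstance) le_rfl

theorem most_of_never {p : ℕ → Prop}
    (h : Tendsto (fun N : ℕ => (({n : ℕ | n < N ∧ ¬ p n}.ncard : ℕ) : ℝ) / (N : ℝ)) atTop (𝓝 0)) :
    MostTimes p := by
  have h1 := h.const_sub 1
  rw [sub_zero] at h1
  refine h1.congr' ?_
  filter_upwards [eventually_ge_atTop 1] with N hN
  have hN0 : (N : ℝ) ≠ 0 := by
    have : (N : ℕ) ≠ 0 := by omega
    exact_mod_cast this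
  have h2 : {n : ℕ | n < N ∧ p n} ∪ {n : ℕ | n < N ∧ ¬ p n} = Set.Iio N := by
    ext n
    simp only [Set.mem_union, Set.mem_ofPred_eq, Set.mem_Iio]
    tauto
  have h3 : Disjoint {n : ℕ | n < N ∧ p n} {n : ℕ | n < N ∧ ¬ p n} := by
    rw [Set.disjoint_left]
    rintro n ⟨_, hn⟩ ⟨_, hn'⟩
    exact hn' hn
  have hf : ∀ q : ℕ → Prop, {n : ℕ | n < N ∧ q n}.Finite := fun q =>
    (Set.finite_Iio N).subset fun n hn => hn.1
  have h4 := Set.ncard_union_eq h3 (hf _) (hf _)
  rw [h2, Set.ncard_eq_toFinset_card', Set.toFinset_Iio, Nat.card_Iio] at h4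
  have h5 : (N : ℝ) = (({n : ℕ | n < N ∧ p n}.ncard : ℕ) : ℝ) +
      (({n : ℕ | n < N ∧ ¬ p n}.ncard : ℕ) : ℝ) := by exact_mod_cast h4
  rw [eq_div_iff hN0, sub_mul, div_mul_cancel₀ _ hN0]
  linarith

theorem almostAll_mono {k : Type} [Field k] [NumberField k] {J : Type} [Fintype J]
    (ω : Module.Basis J ℤ (𝓞 k)) {m : ℕ} {S T : Set (Fin (m + 1) → 𝓞 k)} (h : AlmostAll ω m S)
    (hST : ∀ v ∈ S, v ∈ T) : AlmostAll ω m T := by
  have hfin : ∀ H : ℕ, (box ω m H).Finite := by
    intro H
    have hinj : Function.Injective (fun v : Fin (m + 1) → 𝓞 k => fun (l : Fin (m + 1)) (j : J) =>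
        ω.repr (v l) j) := by
      intro v w hvw
      funext l
      apply ω.repr.injective
      ext j
      exact congrFun (congrFun hvw l) j
    refine Set.Finite.of_finite_image (f := fun v : Fin (m + 1) → 𝓞 k =>
      fun (l : Fin (m + 1)) (j : J) => ω.repr (v l) j) ?_ hinj.injOn
    refine (Set.Finite.pi' fun _ : Fin (m + 1) => Set.Finite.pi' fun _ : J =>
      Set.finite_Icc (-(H : ℤ)) H).subset ?_
    rintro _ ⟨v, hv, rfl⟩ l j
    exact abs_le.1 (hv l j)
  have hle : ∀ H : ℕ, (({v | v ∈ box ω m H ∧ v ∈ T}.ncard : ℝ) / ((box ω m H).ncard : ℝ)) ≤ 1 := by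
    intro H
    have h1 : {v | v ∈ box ω m H ∧ v ∈ T}.ncard ≤ (box ω m H).ncard :=
      Set.ncard_le_ncard (fun v (hv : v ∈ box ω m H ∧ v ∈ T) => hv.1) (hfin H)
    apply div_le_one_of_le₀ _ (Nat.cast_nonneg _)
    exact_mod_cast h1
  refine tendsto_of_tendsto_of_tendsto_of_le_of_le h tendsto_const_nhds ?_ hle
  intro H
  have h1 : {v | v ∈ box ω m H ∧ v ∈ S}.ncard ≤ {v | v ∈ box ω m H ∧ v ∈ T}.ncard :=
    Set.ncard_le_ncard (fun v (hv : v ∈ box ω m H ∧ v ∈ S) => ⟨hv.1, hST v hv.2⟩)
      ((hfin H).subset fun v (hv : v ∈ box ω m H ∧ v ∈ T) => hv.1)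
  have h2 : (({v | v ∈ box ω m H ∧ v ∈ S}.ncard : ℕ) : ℝ) ≤
      (({v | v ∈ box ω m H ∧ v ∈ T}.ncard : ℕ) : ℝ) := Nat.cast_le.2 h1
  exact div_le_div_of_nonneg_right h2 (Nat.cast_nonneg _)

/-- There is a function `C` such that the following holds for every number field `K` (of any
degree), every integral basis `ω` of `K` and every `m`. Let `n, D ≥ 1`, `d ≥ 2` and let `P / Q`,
`P, Q ∈ K[t_1, ..., t_m][x]`, be any family of rational maps of degree `d` which is not isotrivial.
(1) For 100% of the vectors `(v_0, v_1, ..., v_m)` of integers of `K` (in the boxes given by the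
basis `ω`) `v_0 ≠ 0`, the member `f` at `t = (v_1 / v_0, ..., v_m / v_0)` has degree `d`, and the `n`-th
symmetric power of `f` has at most `C(n, D, d)` preperiodic points in `Pⁿ(L)`, for all extensions
`L` of `K` of degree at most `D`.
(2) The coordinate vectors of the other `(v_0, v_1, ..., v_m)` form a pronull set.
(3) Let `W` be a finite family of integral matrices of determinant one, of size `(m + 1) [K : ℚ]`,
which generates the special linear group modulo all `q` prime to some `q₀`, and `u ≠ 0`. For almost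
every infinite word in the matrices, for ALL `n, D ≥ 1`, `d ≥ 2` and ALL such families `P / Q`, the bound
holds for the members at the `i`-th points of the orbit of `u` for 100% of the `i`. -/
theorem result : ∃ C : ℕ → ℕ → ℕ → ℕ, ∀ (K : IntermediateField ℚ Qbar) [NumberField K] (J : Type)
    [Fintype J] [DecidableEq J] (ω : Module.Basis J ℤ (𝓞 K)) (m : ℕ),
    (∀ n D d : ℕ, 1 ≤ n → 1 ≤ D → 2 ≤ d → ∀ P Q : (MvPolynomial (Fin m) K)[X], IsFamily P Q d →
      AlmostAll ω m {v | Good P Q d n D (C n D d) v} ∧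
      ProNull {c : Fin (m + 1) × J → ℤ | ¬ Good P Q d n D (C n D d) (vec ω c)}) ∧
    ∀ (W : Walk (Fin (m + 1) × J)) (u : Fin (m + 1) × J → ℤ), u ≠ 0 → ∀ᵐ w ∂(words W.m),
      ∀ n D d : ℕ, 1 ≤ n → 1 ≤ D → 2 ≤ d → ∀ P Q : (MvPolynomial (Fin m) K)[X], IsFamily P Q d →
      MostTimes fun i => Good P Q d n D (C n D d) (vec ω (orb W u w i)) := by
  refine ⟨fun n D d => Run7.h830.SF.NB (n * D) d ^ n, ?_⟩
  intro K _ J _ _ ω m
  have step : ∀ n D d : ℕ, 1 ≤ n → 2 ≤ d → ∀ (P Q : (MvPolynomial (Fin m) K)[X])
      (v : Fin (m + 1) → 𝓞 K), (v 0 ≠ 0 ∧ IsCoprime (special v P) (special v Q) ∧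
        max (special v P).natDegree (special v Q).natDegree = d ∧
        (Pool.Agent.Y706.BI.preperB (special v P) (special v Q) d (n * D)).encard ≤
          ((Run7.h830.SF.NB (n * D) d : ℕ) : ℕ∞)) →
      Good P Q d n D (Run7.h830.SF.NB (n * D) d ^ n) v := by
    rintro n D d hn hd P Q v ⟨h1, h2, h3, h4⟩
    refine ⟨h1, h2, h3, ?_⟩
    intro L _ hKL hL Φ hΦ
    exact Run7.h830.SF.Sym.sym_le K hn (by omega) _ _ h2 h3 h4 L hKL hL Φ hΦ.2
  have key : ∀ n D d : ℕ, 1 ≤ n → 1 ≤ D → 2 ≤ d → ∀ P Q : (MvPolynomial (Fin m) K)[X],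
      IsFamily P Q d → ProNull {c : Fin (m + 1) × J → ℤ |
        ¬ Good P Q d n D (Run7.h830.SF.NB (n * D) d ^ n) (vec ω c)} := by
    rintro n D d hn hD hd P Q ⟨hmax, hco, hiso⟩
    have h := Run7.h830.SF.t_famp K J ω d (n * D) hd (Nat.mul_pos hn hD) m P Q hmax hco hiso
    have hp : ∀ c : Fin (m + 1) × J → ℤ, vec ω c = Pool.Agent.Y706.vec ω c := by
      intro c
      funext l
      exact Finset.sum_congr rfl fun j _ => mul_comm _ _
    refine Pool.Agent.N891.OY.proNull_mono h ?_
    intro c hc hcon
    apply hc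
    rw [hp]
    exact step n D d hn hd P Q _ hcon
  refine ⟨fun n D d hn hD hd P Q h => ⟨?_, key n D d hn hD hd P Q h⟩, ?_⟩
  · obtain ⟨hmax, hco, hiso⟩ := h
    have h1 := Run7.h830.SF.t_fam K J ω d (n * D) hd (Nat.mul_pos hn hD) m P Q hmax hco hiso
    exact almostAll_mono ω h1 fun v hv => step n D d hn hd P Q v hv
  intro W u hu
  obtain ⟨j0⟩ : Nonempty J := ω.index_nonempty
  have hk : Countable K := (Module.finBasis ℚ K).equivFun.injective.countable
  have c1 : Countable (MvPolynomial (Fin m) K) := countable_mv _ _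
  have c2 : Countable (MvPolynomial (Fin m) K)[X] := countable_poly _
  rcases Nat.eq_zero_or_pos m with hm | hm
  · subst hm
    refine Filter.Eventually.of_forall fun w n D d hn hD hd P Q h => ?_
    obtain ⟨hmax, hco, hiso⟩ := h
    have hcz0 : CharZero (RF K 0) :=
      charZero_of_injective_algebraMap (R := K) (algebraMap K _).injective
    have hinj : Function.Injective (algebraMap (MvPolynomial (Fin 0) K) (RF K 0)) :=
      IsFractionRing.injective _ _
    obtain ⟨i, _⟩ := Run7.h830.SF.exists_dir d hd (genBar P) (genBar Q) (by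
      rw [genBar, genBar, Polynomial.natDegree_map, Polynomial.natDegree_map, generic, generic,
        Polynomial.natDegree_map_eq_of_injective hinj,
        Polynomial.natDegree_map_eq_of_injective hinj]
      exact hmax) ((Polynomial.isCoprime_map _).2 hco) hiso
    exact i.elim0
  have hcard : 2 ≤ Fintype.card (Fin (m + 1) × J) := by
    rw [Fintype.card_prod, Fintype.card_fin]
    have hJ : 0 < Fintype.card J := Fintype.card_pos_iff.2 ⟨j0⟩
    nlinarith
  simp only [ae_all_iff]
  intro n D d hn hD hd P Q hPQ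
  filter_upwards [Pool.Agent.N24.RW.main (Fin (m + 1) × J) hcard W u hu _
    (key n D d hn hD hd P Q hPQ)] with w hw
  exact most_of_never hw

end Pool.Agent.Results.MP_13bc7b_nt.SymmetricPowersOfFamilies
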