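import Pool.Agent.Run7.h197.X.Skew

/-!
# Periodic points of triangular maps with few places of bad reduction: a bound independent of the degrees

For all `D` there is `w` such that for all `n ≥ 1` there is `d₀` with the following property. Let `K` be ANY
number field of degree at most `D`, let `S` be ANY set of `s` prime ideals of `K`, let `N` be ANY dimension, and
let

  `F(x_1, …, x_N) = (P_1(x_1 ^ d_1), P_2(x_1; x_2 ^ d_2), …, P_N(x_1, …, x_{N-1}; x_N ^ d_N))`

be ANY triangular map of the affine space over `K` for which `P_i` is a polynomial in `x_i ^ d_i` of ANY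
positive degree, whose coefficients are ARBITRARY polynomials in `x_1, …, x_{i-1}` with coefficients which are
integral outside of `S`, the leading one being a constant which is a unit outside of `S`, and
`d_i ≥ d₀`, `(8 n s) ^ n ≤ d_i ^ (n - 1)`, i.e. `s ≤ d_i ^ (1 - 1 / n) / (8 n)`. Then `F` has at most

  `((2 s (16 s + 1) ^ (n - 1) + 1) w + 1) ^ N`

periodic points in `K ^ N`. The bound does not depend on the `d_i`, on the degrees of the `P_i` and on `K`.

If the total degree of `F_i` is at most `d_i deg P_i = δ` for all `i`, with the same `δ`, then `F` is an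
endomorphism of the projective space of dimension `N` of degree `δ`: its leading forms have no nontrivial
common zero. For all endomorphisms of the projective space of degree `δ` with `s` places of bad reduction the
bound would have to depend on `δ`, already for `N = 1`.

Proof. The coordinates of periodic points are integral outside of `S`. Let `x`, `y` be periodic points with
the same first `i - 1` coordinates. The differences of the `i`-th coordinates of `F(x)` and `F(y)` are
divisible by `x_i ^ d_i - y_i ^ d_i` outside of `S`, which is divisible by `x_i - y_i`; the same for the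
points of the two orbits. By periodicity, `x_i ^ d_i - y_i ^ d_i` and `x_i - y_i` have the same absolute values
outside of `S`. By the theorem `Run7.h197.X.main_set` (linear forms in logarithms uniformly in all number
fields of bounded degree at the archimedean places, a box principle at the places in `S`), a set of
elements of `K` with this property has at most `(2 s (16 s + 1) ^ (n - 1) + 1) w + 1` elements.
-/

set_option autoImplicit false

namespace Pool.Agent.Results.MP_13bc7b_nt.TriangularFewBadPlaces

open NumberField Polynomial IsDedekindDomain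

/-- the triangular map `x ↦ (P_i(x; x_i ^ d_i))_i` of the affine space -/
noncomputable def triangularMap {K : Type} [Field K] {N : ℕ} (d : Fin N → ℕ)
    (P : Fin N → (MvPolynomial (Fin N) K)[X]) (x : Fin N → K) : Fin N → K :=
  fun i => ((P i).map (MvPolynomial.eval x)).eval (x i ^ d i)

/-- the periodic points in `K ^ N` -/
def periodicPoints {K : Type} {N : ℕ} (F : (Fin N → K) → Fin N → K) : Set (Fin N → K) :=
  {x | ∃ m : ℕ, 1 ≤ m ∧ F^[m] x = x}

/-- `P_i` is a polynomial of positive degree, whose coefficients are polynomials in the variables before the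
`i`-th one with coefficients integral outside of `S`, the leading coefficient being a constant which is a
unit outside of `S` -/
def Admissible {K : Type} [Field K] [NumberField K] {N : ℕ} (S : Finset (HeightOneSpectrum (𝓞 K)))
    (i : Fin N) (P : (MvPolynomial (Fin N) K)[X]) : Prop :=
  1 ≤ P.natDegree ∧ (∀ j, ∀ l ∈ (P.coeff j).vars, l < i) ∧
    (∃ u, P.leadingCoeff = MvPolynomial.C u ∧ ∀ v ∉ S, FinitePlace.mk v u = 1) ∧
    ∀ v ∉ S, ∀ j m, FinitePlace.mk v ((P.coeff j).coeff m) ≤ 1

/-- **periodic points of triangular maps with few places of bad reduction** -/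
theorem result (D : ℕ) : ∃ w : ℕ, ∀ n : ℕ, 1 ≤ n → ∃ d₀ : ℕ, ∀ (K : Type) [Field K] [NumberField K],
    Module.finrank ℚ K ≤ D → ∀ (S : Finset (HeightOneSpectrum (𝓞 K))) (N : ℕ) (d : Fin N → ℕ)
    (P : Fin N → (MvPolynomial (Fin N) K)[X]),
    (∀ i, Admissible S i (P i) ∧ d₀ ≤ d i ∧ (8 * n * S.card) ^ n ≤ d i ^ (n - 1)) →
    (periodicPoints (triangularMap d P)).encard ≤
      (((2 * (S.card * (16 * S.card + 1) ^ (n - 1)) + 1) * w + 1) ^ N : ℕ) := by
  obtain ⟨w, hw⟩ := Run7.h197.X.tri_main D
  refine ⟨w, fun n hn => ?_⟩
  obtain ⟨d₀, hd₀⟩ := hw n hn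
  exact ⟨d₀, fun K _ _ hK S N d P h => hd₀ K hK S N d P (fun i => (h i).2.1) (fun i => (h i).2.2)
    (fun i => (h i).1.1) (fun i => (h i).1.2.1) (fun i => (h i).1.2.2.1)
    (fun v hv i => (h i).1.2.2.2 v hv)⟩

end Pool.Agent.Results.MP_13bc7b_nt.TriangularFewBadPlaces
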