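import Pool.Agent.Run7.h316.DN.UB

/-!
# Uniform boundedness of preperiodic points for endomorphisms of `ℙ^N` with prime, equidistributed,
# metric or random coefficients

For all `N ≥ 1` and `d ≥ 2` there is ONE function `C` such that for every number field `k` and every integral
basis of `k` 100 % of the endomorphisms of `ℙ^N` of degree `d` over `k`, in all the families of coefficient
vectors below, have at most `C(D)` preperiodic points in `ℙ^N(K)` for ALL number fields `K` containing `k` of
degree at most `D` over `ℚ`.

Let `c w`, `w ∈ Ω`, be a family of integral vectors, the coordinates of the coefficients of `N + 1` forms of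
degree `d` in `N + 1` variables, and `S M ⊂ Ω` finite sets; `Usually`: for ALL `D` the proportion of the
`w ∈ S M` for which `Bounded D (C D)` does not hold for `c w` tends to zero, `M → ∞`. The property `Usually` is
fully robust (`Pool.Agent.Run7.h316.DN.FullyRobust`):

(1) All fully dominated families have it: there are `C₀`, `A`, `M₀` such that for all `q` prime to `M₀` at most
the proportion `C₀ (q / φ(q)) ^ A q ^ (-n) + o(1)` of the `c w`, `w ∈ S M`, is in a given class modulo `q`.
(All equidistributed sequences, along arbitrary sets of times, are fully dominated, and all their subfamilies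
of positive lower density.)
(2) - (4) Metric sequences: `(⌊f_{i,l}(x_i)⌋)_i` for Koksma sequences `f_{i,0}, f_{i,1}, …`,
`(⌊a_{i,l} x_i⌋)_i` for arbitrary sequences of different integers (or of real numbers with a gap) and
`(⌊ξ_i x_i ^ (k_l)⌋)_i`, for almost all `x`.
(5) Random orbits of groups of integral matrices of determinant one which generate `SL(ℤ/q)` for all `q`
prime to some number (all Zariski dense groups, possibly of infinite index).
(6) Generalised polynomials `(⌊∑_t a_{i,t} l ^ t⌋)_i` at the integers and at the primes `l` of `(M, 2M]`.
(7) PRIME COEFFICIENTS: for all `D` the proportion of the vectors `c` of prime numbers `≤ M` for which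
`Bounded D (C D)` does not hold tends to zero.

Proof. The theorem for all abstract notions of density of helper938 (`Pool.Agent.N938.TD.final_order`, after
the project UB of helper275, with the contributions listed there) has three hypotheses on the density: sets
given by the divisibility of a polynomial by a large prime have small density, sets given by the divisibility
by a high power of a prime have small density, and thin sets have density zero (Hilbert's irreducibility
theorem). They are shown here for all fully dominated families (`Pool.Agent.Run7.h316.DN.denF`): thin sets are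
VERY null (`Pool.Agent.Run7.h316.DN.hit_very`), i.e. for infinitely many primes `p` the proportion of the
classes modulo `p` without elements of the set is at least `1 / C`, which are avoided by all dominated
families. Vectors of primes are fully dominated by the prime number theorem for arithmetic progressions
(helper923). The pronull sets are those of helper891 (`Pool.Agent.N891.OR`, with `Pool.Agent.N455.HT`,
helper455); metric sequences: `Pool.Agent.N24.KM` (helpers 24, 344, 617, 199, 764, 432, 286); random orbits:
`Pool.Agent.N24.RW` (helpers 24, 123, 195, 300, 543, 765); generalised polynomials: `Pool.Agent.N666.TM`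
(helper666); `Pool.Agent.N918.EQ` (helper918). The random orbits (5) are the starting file
`UniformRandomOrbits` (helper891).
-/

set_option autoImplicit false

open MvPolynomial NumberField
open Pool.Agent.Run7.h316.DN (FullyRobust FullNull)

namespace Pool.Agent.Results.MP_13bc7b_nt.UniformPrimeCoefficients

/-- The self-map of `K^(N+1)` given by forms `F` with coefficients in the ring of integers of `k`. -/
noncomputable def selfMap {k : Type} [Field k] [NumberField k] (K : Type) [Field K] [Algebra k K]
    {N : ℕ} (F : Fin (N + 1) → MvPolynomial (Fin (N + 1)) (𝓞 k)) (x : Fin (N + 1) → K) :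
    Fin (N + 1) → K :=
  fun i => eval x (map ((algebraMap k K).comp (algebraMap (𝓞 k) k)) (F i))

/-- `F` defines an endomorphism of `P^N` over `k`, and for all number fields `K` containing `k` of
degree at most `D` over `ℚ` it has at most `C` preperiodic points in `P^N(K)`: every finite set of
pairwise non proportional non zero vectors of `K^(N+1)` which are preperiodic up to scalars has at most
`C` elements. -/
def Bounded {k : Type} [Field k] [NumberField k] {N : ℕ} (D C : ℕ)
    (F : Fin (N + 1) → MvPolynomial (Fin (N + 1)) (𝓞 k)) : Prop :=
  (∀ x : Fin (N + 1) → AlgebraicClosure k, selfMap (AlgebraicClosure k) F x = 0 → x = 0) ∧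
    ∀ (K : Type) [Field K] [NumberField K] [Algebra k K], Module.finrank ℚ K ≤ D →
      ∀ X : Finset (Fin (N + 1) → K), (∀ x ∈ X, x ≠ 0) →
        (∀ x ∈ X, ∀ y ∈ X, ∀ c : K, x = c • y → x = y) →
        (∀ x ∈ X, ∃ m n : ℕ, m < n ∧ ∃ c : K, c ≠ 0 ∧
          (selfMap K F)^[n] x = c • (selfMap K F)^[m] x) → X.card ≤ C

/-- The exponent vectors of degree `d` in `N + 1` variables. -/
abbrev Exps (N d : ℕ) : Type := {κ : Fin (N + 1) → Fin (d + 1) // ∑ i, (κ i : ℕ) = d}

/-- The system of `N + 1` forms of degree `d` in `N + 1` variables over the ring of integers of `k`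
whose coefficients have the coordinates `c` with respect to the integral basis `ω`. -/
noncomputable def system {k : Type} [Field k] [NumberField k] {J : Type} [Fintype J]
    (ω : Module.Basis J ℤ (𝓞 k)) {N d : ℕ} (c : (Fin (N + 1) × Exps N d) × J → ℤ) :
    Fin (N + 1) → MvPolynomial (Fin (N + 1)) (𝓞 k) :=
  fun i => ∑ κ : Exps N d, monomial (Finsupp.equivFunOnFinite.symm fun l => (κ.1 l : ℕ))
    (∑ j, (c ((i, κ), j) : 𝓞 k) * ω j)

/-- For ALL `D` the proportion of the `w` in `S M` for which the system with the coefficient vector `c w`
does not define an endomorphism of `ℙ^N` or has more than `C D` preperiodic points in `ℙ^N(K)` for some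
number field `K` containing `k` with `[K : ℚ] ≤ D` tends to zero, `M → ∞`. -/
def Usually (C : ℕ → ℕ) {k : Type} [Field k] [NumberField k] {J : Type} [Fintype J]
    (ω : Module.Basis J ℤ (𝓞 k)) (N d : ℕ) (Ω : Type) (S : ℕ → Finset Ω)
    (c : Ω → (Fin (N + 1) × Exps N d) × J → ℤ) : Prop :=
  ∀ D : ℕ, ∀ ε : ℝ, 0 < ε → ∃ M₀ : ℕ, ∀ M : ℕ, M₀ ≤ M →
    (({w : Ω | w ∈ S M ∧ ¬ Bounded D (C D) (system ω (c w))}.ncard : ℕ) : ℝ) ≤ ε * (S M).card

theorem exps_nonempty (N d : ℕ) : Nonempty (Exps N d) :=
  ⟨⟨Pi.single 0 (Fin.last d), by
    rw [Finset.sum_eq_single (0 : Fin (N + 1))]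
    · simp
    · intro i _ hi
      simp [Pi.single_eq_of_ne hi]
    · intro h
      exact absurd (Finset.mem_univ _) h⟩⟩

theorem system_eq {k : Type} [Field k] [NumberField k] {J : Type} [Fintype J]
    (ω : Module.Basis J ℤ (𝓞 k)) {N d : ℕ} (c : (Fin (N + 1) × Exps N d) × J → ℤ) :
    system ω c = Pool.Agent.W275.UB.Ph ω c := by
  funext i
  refine Finset.sum_congr rfl fun κ _ => ?_
  congr 1
  exact Finset.sum_congr rfl fun j _ => mul_comm _ _

/-- **Uniform boundedness for endomorphisms with prime, equidistributed, metric or random
coefficients.** -/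
theorem result (N d : ℕ) (hd : 2 ≤ d) : ∃ C : ℕ → ℕ,
    ∀ (k : Type) [Field k] [NumberField k] (J : Type) [Fintype J] [DecidableEq J]
      (ω : Module.Basis J ℤ (𝓞 k)), FullyRobust (Usually C ω N d) := by
  choose C hC using fun D => Pool.Agent.Run7.h316.DN.UB.full_bdd N d D hd
  refine ⟨C, fun k _ _ J _ _ ω => ?_⟩
  have key : ∀ D : ℕ,
      FullNull {c : (Fin (N + 1) × Exps N d) × J → ℤ | ¬ Bounded D (C D) (system ω c)} := by
    intro D
    refine (hC D (𝓞 k) J ω).mono ?_
    intro c hc hB
    apply hc
    rw [system_eq]
    refine ⟨?_, ?_⟩
    · exact (hB (AlgebraicClosure k)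
        ((algebraMap k (AlgebraicClosure k)).comp (algebraMap (𝓞 k) k))).1
    · intro K _ _ _ hK
      exact (hB K ((algebraMap k K).comp (algebraMap (𝓞 k) k))).2 inferInstance hK
  obtain ⟨j0⟩ : Nonempty J := ω.index_nonempty
  have hne : Nonempty ((Fin (N + 1) × Exps N d) × J) := by
    obtain ⟨e0⟩ := exps_nonempty N d
    exact ⟨((0, e0), j0)⟩
  exact Pool.Agent.Run7.h316.DN.fullyRobust_all (I := ℕ)
    (fun D => {c : (Fin (N + 1) × Exps N d) × J → ℤ | ¬ Bounded D (C D) (system ω c)}) key
    (Usually C ω N d) (fun Ω S c h D ε hε => h D ε hε)

end Pool.Agent.Results.MP_13bc7b_nt.UniformPrimeCoefficients
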